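import Pool.Agent.Run7.h987.SE.Iface

/-!
# The actions (piece ACT)
-/

set_option autoImplicit false

open MeasureTheory Set
open scoped ENNReal symmDiff

namespace Run7.h370.SE

open Pool.Agent.Run7.h987.SE

variable {Γ : Type} [Group Γ]

theorem shift_one (x : Γ → Bool) : shift (1 : Γ) x = x := by
  funext h
  simp [shift]

theorem shift_mul (g h : Γ) (x : Γ → Bool) : shift (g * h) x = shift g (shift h x) := by
  funext k
  simp [shift, mul_assoc]

theorem shift2_one (z : Bool × (Γ → Bool)) : shift2 (1 : Γ) z = z := by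
  unfold shift2
  rw [shift_one]

theorem shift2_mul (g h : Γ) (z : Bool × (Γ → Bool)) :
    shift2 (g * h) z = shift2 g (shift2 h z) := by
  unfold shift2
  rw [shift_mul]

theorem shift2_eq (g : Γ) : (shift2 g : Bool × (Γ → Bool) → Bool × (Γ → Bool)) =
    Prod.map id (shift g) := rfl

/-- the action -/
noncomputable def theAct {X : Type} [MeasurableSpace X] {μ : Measure X} {t : ℝ}
    (e : X ≃ᵐ Bool × (Γ → Bool)) (he : μ.map e = mt Γ t)
    (h1 : ∀ g : Γ, Measurable (shift2 g : Bool × (Γ → Bool) → Bool × (Γ → Bool)))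
    (h2 : ∀ g : Γ, (mt Γ t).map (shift2 g) = mt Γ t) : PMPAction Γ X μ where
  act g x := e.symm (shift2 g (e x))
  act_one x := by rw [shift2_one, e.symm_apply_apply]
  act_mul g h x := by rw [e.apply_symm_apply, shift2_mul]
  meas g := e.symm.measurable.comp ((h1 g).comp e.measurable)
  pres g := by
    have e1 : (fun x => e.symm (shift2 g (e x))) = e.symm ∘ (shift2 g ∘ e) := rfl
    show μ.map (fun x => e.symm (shift2 g (e x))) = μ
    rw [e1, ← Measure.map_map e.symm.measurable ((h1 g).comp e.measurable),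
      ← Measure.map_map (h1 g) e.measurable, he, h2, ← he,
      Measure.map_map e.symm.measurable e.measurable]
    have e2 : (e.symm ∘ e : X → X) = id := by
      funext x
      exact e.symm_apply_apply x
    rw [e2, Measure.map_id]

theorem bern_true {t : ℝ} : (bern t) {true} = ENNReal.ofReal t := by
  simp [bern]

theorem t_ACT (hS : P_SHIFT) (hM : P_MIX) (hI : P_ISO) (hN : P_INF) : P_ACT := by
  intro Γ _ _ hna X _ _ μ _ hμ t ht0 ht2
  have hinf : Infinite Γ := hN Γ hna
  obtain ⟨hS1, hS2⟩ := hS Γ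
  obtain ⟨hnull, hfree⟩ := hS2 hinf
  have hbp : IsProbabilityMeasure (bern t) := bern_prob ⟨t, ht0.le, by linarith⟩
  have hmp : IsProbabilityMeasure (mt Γ t) := by
    unfold Pool.Agent.Run7.h987.SE.mt
    infer_instance
  have hm1 : ∀ g : Γ, Measurable (shift2 g : Bool × (Γ → Bool) → Bool × (Γ → Bool)) := fun g => by
    rw [shift2_eq]
    exact measurable_id.prodMap (hS1 g).1
  have hm2 : ∀ g : Γ, (mt Γ t).map (shift2 g) = mt Γ t := fun g => by
    unfold Pool.Agent.Run7.h987.SE.mt
    rw [shift2_eq, ← Measure.map_prod_map _ _ measurable_id (hS1 g).1, (hS1 g).2, Measure.map_id]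
  have hatom : ∀ z : Bool × (Γ → Bool), (mt Γ t) {z} = 0 := by
    rintro ⟨b, x⟩
    unfold Pool.Agent.Run7.h987.SE.mt
    rw [← singleton_prod_singleton, Measure.prod_prod, hnull x, mul_zero]
  obtain ⟨e, he⟩ := hI X (Bool × (Γ → Bool)) μ (mt Γ t) hμ hatom
  have hmapp : ∀ s : Set (Bool × (Γ → Bool)), (mt Γ t).real s = μ.real (e ⁻¹' s) := by
    intro s
    unfold Measure.real
    rw [← he, MeasurableEquiv.map_apply]
  have hact : ∀ (g : Γ) (x : X), (theAct e he hm1 hm2).act g x = e.symm (shift2 g (e x)) :=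
    fun _ _ => rfl
  refine ⟨theAct e he hm1 hm2, ?_, ?_, ?_⟩
  · intro g hg
    have a1 : ∀ᵐ y ∂(nu Γ), shift g y ≠ y := hfree g hg
    have a2 : ∀ᵐ z ∂(mt Γ t), shift2 g z ≠ z := by
      have a3 : ∀ᵐ z ∂((bern t).prod (nu Γ)), shift g z.2 ≠ z.2 :=
        Measure.quasiMeasurePreserving_snd.ae a1
      unfold Pool.Agent.Run7.h987.SE.mt
      filter_upwards [a3] with z hz h
      exact hz (congrArg Prod.snd h)
    have hmpr : MeasurePreserving e μ (mt Γ t) := ⟨e.measurable, he⟩
    filter_upwards [hmpr.quasiMeasurePreserving.ae a2] with x hx h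
    apply hx
    rw [hact] at h
    have := congrArg e h
    rw [e.apply_symm_apply] at this
    exact this
  · intro F δ hδ
    refine ⟨e ⁻¹' {z | z.1 = true}, e.measurable (measurable_fst (measurableSet_singleton true)),
      ?_, ?_⟩
    · have h1 : μ.real (e ⁻¹' {z | z.1 = true}) = t := by
        rw [← hmapp]
        have h2 : {z : Bool × (Γ → Bool) | z.1 = true} = {true} ×ˢ univ := by
          ext z
          simp
        unfold Measure.real Pool.Agent.Run7.h987.SE.mt
        rw [h2, Measure.prod_prod, measure_univ, mul_one, bern_true,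
          ENNReal.toReal_ofReal ht0.le]
      rw [h1, sub_self, abs_zero]
      exact hδ
    · intro γ _
      have h1 : (theAct e he hm1 hm2).act γ '' (e ⁻¹' {z | z.1 = true}) =
          e ⁻¹' {z | z.1 = true} := by
        ext x
        constructor
        · rintro ⟨y, hy, rfl⟩
          rw [hact]
          simp only [mem_preimage, mem_ofPred_eq, e.apply_symm_apply] at hy ⊢
          exact hy
        · intro hx
          refine ⟨(theAct e he hm1 hm2).act γ⁻¹ x, ?_, ?_⟩
          · rw [hact]
            simp only [mem_preimage, mem_ofPred_eq, e.apply_symm_apply] at hx ⊢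
            exact hx
          · rw [← (theAct e he hm1 hm2).act_mul, mul_inv_cancel, (theAct e he hm1 hm2).act_one]
      rw [h1, symmDiff_self]
      simp only [bot_eq_empty, measureReal_empty]
      exact hδ
  · intro r hr
    obtain ⟨F, C, hC, hmix⟩ := hM Γ hna t ht0 ht2
    have key : ∀ δ : ℝ, 0 < δ → |0 - r| ≤ (C + 1) * δ ∨ |t - r| ≤ (C + 1) * δ ∨
        |1 - t - r| ≤ (C + 1) * δ ∨ |1 - r| ≤ (C + 1) * δ := by
      intro δ hδ
      obtain ⟨B, hB, hBr, hBi⟩ := hr F δ hδ
      have b1 : (mt Γ t).real (e.symm ⁻¹' B) = μ.real B := by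
        rw [hmapp, ← preimage_comp]
        congr 1
        ext x
        simp
      have b2 : ∀ γ ∈ F, (mt Γ t).real ((shift2 γ '' (e.symm ⁻¹' B)) ∆ (e.symm ⁻¹' B)) ≤ δ := by
        intro γ hγ
        refine le_trans (le_of_eq ?_) (hBi γ hγ).le
        rw [hmapp]
        congr 1
        have c1 : e ⁻¹' (shift2 γ '' (e.symm ⁻¹' B)) = (theAct e he hm1 hm2).act γ '' B := by
          ext x
          constructor
          · rintro ⟨z, hz, hzx⟩
            refine ⟨e.symm z, hz, ?_⟩
            rw [hact, e.apply_symm_apply, hzx, e.symm_apply_apply]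
          · rintro ⟨y, hy, rfl⟩
            refine ⟨e y, ?_, ?_⟩
            · simp only [mem_preimage, e.symm_apply_apply]
              exact hy
            · rw [hact, e.apply_symm_apply]
        have c2 : e ⁻¹' (e.symm ⁻¹' B) = B := by
          ext x
          simp
        ext x
        simp only [mem_preimage, mem_symmDiff]
        have d1 : (e x ∈ shift2 γ '' (e.symm ⁻¹' B)) ↔ x ∈ (theAct e he hm1 hm2).act γ '' B := by
          rw [← c1, mem_preimage]
        have d2 : (e x ∈ e.symm ⁻¹' B) ↔ x ∈ B := by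
          simp
        rw [d1, ← mem_preimage, d2]
      have b3 := hmix (e.symm ⁻¹' B) δ (e.symm.measurable hB) b2
      rw [b1] at b3
      have tri : ∀ v : ℝ, |μ.real B - v| ≤ C * δ → |v - r| ≤ (C + 1) * δ := by
        intro v hv
        rw [abs_le] at hv ⊢
        rw [abs_lt] at hBr
        constructor <;> nlinarith [hv.1, hv.2, hBr.1, hBr.2]
      rcases b3 with h | h | h | h
      · exact Or.inl (tri _ h)
      · exact Or.inr (Or.inl (tri _ h))
      · exact Or.inr (Or.inr (Or.inl (tri _ h)))
      · exact Or.inr (Or.inr (Or.inr (tri _ h)))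
    by_contra hcon
    push Not at hcon
    obtain ⟨n1, n2, n3, n4⟩ := hcon
    have p1 : 0 < |0 - r| := abs_pos.2 (sub_ne_zero.2 n1.symm)
    have p2 : 0 < |t - r| := abs_pos.2 (sub_ne_zero.2 n2.symm)
    have p3 : 0 < |1 - t - r| := abs_pos.2 (sub_ne_zero.2 n3.symm)
    have p4 : 0 < |1 - r| := abs_pos.2 (sub_ne_zero.2 n4.symm)
    obtain ⟨m, hm, q1, q2, q3, q4⟩ : ∃ m : ℝ, 0 < m ∧ m ≤ |0 - r| ∧ m ≤ |t - r| ∧
        m ≤ |1 - t - r| ∧ m ≤ |1 - r| := by
      refine ⟨min (min |0 - r| |t - r|) (min |1 - t - r| |1 - r|),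
        lt_min (lt_min p1 p2) (lt_min p3 p4), ?_, ?_, ?_, ?_⟩
      · exact (min_le_left _ _).trans (min_le_left _ _)
      · exact (min_le_left _ _).trans (min_le_right _ _)
      · exact (min_le_right _ _).trans (min_le_left _ _)
      · exact (min_le_right _ _).trans (min_le_right _ _)
    have hC1 : 0 < C + 1 := by linarith
    have hk := key (m / (2 * (C + 1))) (by positivity)
    have e1 : (C + 1) * (m / (2 * (C + 1))) = m / 2 := by
      field_simp
    rw [e1] at hk
    rcases hk with h | h | h | h <;> linarith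

end Run7.h370.SE
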